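import Pool.Agent.Lib.MP_4c94d3_al.Main

set_option autoImplicit false

namespace Pool.Agent.Results.MP_4c94d3_al.FinGenEverySet

open Filter Pool.Agent.Lib.MP_4c94d3_al

lemma limsup_log_eq (a : ℕ → ℕ) (A : ℕ) (hA : 1 ≤ A) (h1 : ∀ n, 1 ≤ a n) (h : ∀ n, a n ≤ A ^ n) :
    Real.exp (limsup (fun n : ℕ => (1 / (n : ℝ)) * Real.log (a n : ℝ)) atTop) =
      limsup (fun n : ℕ => (a n : ℝ) ^ ((1 : ℝ) / (n : ℝ))) atTop := by
  have hlog : ∀ n : ℕ, Real.exp ((1 / (n : ℝ)) * Real.log (a n : ℝ)) =
      (a n : ℝ) ^ ((1 : ℝ) / (n : ℝ)) := by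
    intro n
    have : (0 : ℝ) < a n := by exact_mod_cast h1 n
    rw [Real.rpow_def_of_pos this, mul_comm]
  have hb : IsBoundedUnder (· ≤ ·) atTop
      (fun n : ℕ => (1 / (n : ℝ)) * Real.log (a n : ℝ)) := by
    refine isBoundedUnder_of ⟨Real.log A, fun n => ?_⟩
    have h2 := root_le A n (a n) hA (h n)
    rw [← hlog] at h2
    have hA' : (0 : ℝ) < A := by exact_mod_cast hA
    rwa [Real.le_log_iff_exp_le hA']
  have hc : IsCoboundedUnder (· ≤ ·) atTop
      (fun n : ℕ => (1 / (n : ℝ)) * Real.log (a n : ℝ)) := by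
    apply IsBoundedUnder.isCoboundedUnder_le
    refine isBoundedUnder_of ⟨0, fun n => ?_⟩
    apply mul_nonneg (by positivity)
    exact Real.log_nonneg (by exact_mod_cast h1 n)
  rw [Real.exp_monotone.map_limsup_of_continuousAt _ Real.continuous_exp.continuousAt hb hc]
  apply congrArg (fun f => limsup f atTop)
  funext n
  exact hlog n

/-- There are a finitely generated group `G` and a finitely generated nontrivial subgroup `H` with a
monoid embedding of the free product of `H` and the naturals which is the inclusion on `H`, such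
that the relative growth rate of `H` equals the growth rate of `G` for EVERY finite generating
set of `G`. (The witness `G` is generated by `a`, `s`, `u` with `u s u⁻¹ = s²`, `u a u⁻¹ = a`;
`H` is generated by `a` and `s`, and `t = u⁻¹ s a s⁻¹ u`.) -/
theorem result :
    ∃ (G : Type) (_ : Group G) (H : Subgroup G), Group.FG G ∧ H.FG ∧ H ≠ ⊥ ∧
      (∃ f : Monoid.Coprod (↥H) (Multiplicative ℕ) →* G,
        Function.Injective f ∧ f.comp Monoid.Coprod.inl = H.subtype) ∧
      ∀ S : Finset G, Subgroup.closure (S : Set G) = ⊤ →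
        limsup (fun n : ℕ => (1 / (n : ℝ)) * Real.log
            ((Set.ncard {g : G | g ∈ H ∧ ∃ l : List G, l.length ≤ n ∧
              (∀ x ∈ l, x ∈ S ∨ x⁻¹ ∈ S) ∧ l.prod = g} : ℕ) : ℝ)) atTop =
        limsup (fun n : ℕ => (1 / (n : ℝ)) * Real.log
            ((Set.ncard {g : G | ∃ l : List G, l.length ≤ n ∧
              (∀ x ∈ l, x ∈ S ∨ x⁻¹ ∈ S) ∧ l.prod = g} : ℕ) : ℝ)) atTop := by
  classical
  refine ⟨KK, inferInstance, HH, ?_, ?_, HH_ne_bot, embedding, ?_⟩
  · rw [Group.fg_iff]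
    exact ⟨{aK, sK, uK}, closure_gens, by simp⟩
  · exact ⟨{aK, sK}, by simp [HH]⟩
  · intro S hS
    have e1 : ∀ n, {g : KK | g ∈ HH ∧ ∃ l : List KK, l.length ≤ n ∧
              (∀ x ∈ l, x ∈ S ∨ x⁻¹ ∈ S) ∧ l.prod = g} = (HH : Set KK) ∩ ball S n := fun n => rfl
    have e2 : ∀ n, {g : KK | ∃ l : List KK, l.length ≤ n ∧
              (∀ x ∈ l, x ∈ S ∨ x⁻¹ ∈ S) ∧ l.prod = g} = ball S n := fun n => rfl
    simp only [e1, e2]
    have hle : ∀ n, ((HH : Set KK) ∩ ball S n).ncard ≤ (ball S n).ncard := fun n =>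
      Set.ncard_le_ncard Set.inter_subset_right (ball_finite S n)
    have hpos : ∀ n, 1 ≤ ((HH : Set KK) ∩ ball S n).ncard := fun n => by
      have h1 : ((HH : Set KK) ∩ ball S n).Nonempty := ⟨1, HH.one_mem, one_mem_ball S n⟩
      have h2 : ((HH : Set KK) ∩ ball S n).Finite :=
        (ball_finite S n).subset Set.inter_subset_right
      exact (Set.ncard_pos h2).2 h1
    have hA : 1 ≤ 2 * S.card + 1 := by omega
    apply Real.exp_injective
    rw [limsup_log_eq _ (2 * S.card + 1) hA hpos (fun n => (hle n).trans (ball_card_le S n)),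
      limsup_log_eq _ (2 * S.card + 1) hA (fun n => (hpos n).trans (hle n)) (ball_card_le S)]
    apply le_antisymm _ (growth_le S hS)
    apply limsup_le_limsup
    · filter_upwards with n
      apply Real.rpow_le_rpow (by positivity) _ (by positivity)
      exact_mod_cast hle n
    · exact cobdd_of _ hpos
    · exact bdd_of _ _ hA (ball_card_le S)

end Pool.Agent.Results.MP_4c94d3_al.FinGenEverySet
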